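import Mathlib

/-! MP_05a6d5_al: subtractive closure does not commute with ideal products in
polynomials in three variables over the naturals. -/

namespace Pool.Agent.Results.MP_05a6d5_al.SclProduct

/-- An ideal of a commutative semiring is subtractive. -/
def IsSubtractive {R : Type*} [CommSemiring R] (I : Ideal R) : Prop :=
  ∀ x y : R, x ∈ I → x + y ∈ I → y ∈ I

/-- The subtractive closure: the smallest subtractive ideal containing `I`. -/
def scl {R : Type*} [CommSemiring R] (I : Ideal R) : Ideal R :=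
  sInf {J | I ≤ J ∧ IsSubtractive J}

open Polynomial in
theorem even_odd (F : ℕ[X]) (hF : F ≠ 0)
    (h : F.eval₂ (Nat.castRingHom ℤ) (-1) = 0) :
    (∃ n, Even n ∧ F.coeff n ≠ 0) ∧ ∃ n, Odd n ∧ F.coeff n ≠ 0 := by
  rw [eval₂_eq_sum, sum_def] at h
  have hne : F.support.Nonempty := by
    rw [Finset.nonempty_iff_ne_empty]
    intro h
    exact hF (support_eq_empty.1 h)
  constructor
  · by_contra hcon
    push Not at hcon
    have h1 : ∑ n ∈ F.support, (Nat.castRingHom ℤ) (F.coeff n) * (-1) ^ n =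
        ∑ n ∈ F.support, - ((F.coeff n : ℕ) : ℤ) := by
      refine Finset.sum_congr rfl fun n hn => ?_
      have : Odd n := by
        by_contra hodd
        rw [Nat.not_odd_iff_even] at hodd
        exact (mem_support_iff.1 hn) (hcon n hodd)
      rw [this.neg_one_pow]
      simp
    rw [h1, Finset.sum_neg_distrib, neg_eq_zero] at h
    have h2 : 0 < ∑ n ∈ F.support, ((F.coeff n : ℕ) : ℤ) := by
      refine Finset.sum_pos (fun n hn => ?_) hne
      have := mem_support_iff.1 hn
      have := Nat.pos_of_ne_zero this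
      exact_mod_cast this
    omega
  · by_contra hcon
    push Not at hcon
    have h1 : ∑ n ∈ F.support, (Nat.castRingHom ℤ) (F.coeff n) * (-1) ^ n =
        ∑ n ∈ F.support, ((F.coeff n : ℕ) : ℤ) := by
      refine Finset.sum_congr rfl fun n hn => ?_
      have : Even n := by
        by_contra hodd
        rw [Nat.not_even_iff_odd] at hodd
        exact (mem_support_iff.1 hn) (hcon n hodd)
      rw [this.neg_one_pow]
      simp
    rw [h1] at h
    have h2 : 0 < ∑ n ∈ F.support, ((F.coeff n : ℕ) : ℤ) := by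
      refine Finset.sum_pos (fun n hn => ?_) hne
      have := mem_support_iff.1 hn
      have := Nat.pos_of_ne_zero this
      exact_mod_cast this
    omega

open Polynomial in
/-- the polynomial X^4 + 4 X + 3 -/
noncomputable def hh : ℕ[X] := X ^ 4 + C 4 * X + C 3

open Polynomial in
theorem hh_supp (n : ℕ) (h : hh.coeff n ≠ 0) : n = 0 ∨ n = 1 ∨ n = 4 := by
  by_contra hcon
  push Not at hcon
  apply h
  unfold hh
  rw [coeff_add, coeff_add, coeff_C, coeff_X_pow, coeff_C_mul, coeff_X]
  rw [if_neg hcon.2.2, if_neg (Ne.symm hcon.2.1), if_neg hcon.1]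
  norm_num

open Polynomial in
theorem prod_zero (F G : ℕ[X]) (hF : F.eval₂ (Nat.castRingHom ℤ) (-1) = 0)
    (hG : G.eval₂ (Nat.castRingHom ℤ) (-1) = 0) (hle : ∀ n, (F * G).coeff n ≤ hh.coeff n) :
    F * G = 0 := by
  by_contra hne
  have hF0 : F ≠ 0 := fun h => hne (by rw [h, zero_mul])
  have hG0 : G ≠ 0 := fun h => hne (by rw [h, mul_zero])
  obtain ⟨⟨a, ha, ha'⟩, ⟨b, hb, hb'⟩⟩ := even_odd F hF0 hF
  obtain ⟨⟨c, hc, hc'⟩, ⟨d, hd, hd'⟩⟩ := even_odd G hG0 hG
  have key : ∀ i j, F.coeff i ≠ 0 → G.coeff j ≠ 0 → i + j = 0 ∨ i + j = 1 ∨ i + j = 4 := by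
    intro i j hi hj
    apply hh_supp
    have h1 : F.coeff i * G.coeff j ≤ (F * G).coeff (i + j) := by
      rw [coeff_mul]
      exact Finset.single_le_sum (f := fun p : ℕ × ℕ => F.coeff p.1 * G.coeff p.2)
        (fun _ _ => Nat.zero_le _)
        (Finset.HasAntidiagonal.mem_antidiagonal.2 (rfl : (i, j).1 + (i, j).2 = i + j))
    have h2 : 0 < F.coeff i * G.coeff j := Nat.pos_of_ne_zero (Nat.mul_ne_zero hi hj)
    have h3 := hle (i + j)
    omega
  have k1 := key a c ha' hc'
  have k2 := key a d ha' hd'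
  have k3 := key b c hb' hc'
  have k4 := key b d hb' hd'
  obtain ⟨a', rfl⟩ := ha
  obtain ⟨b', rfl⟩ := hb
  obtain ⟨c', rfl⟩ := hc
  obtain ⟨d', rfl⟩ := hd
  omega

open Polynomial in
/-- specialisation of the three variables to `X, 0, 0` -/
noncomputable def sp : MvPolynomial (Fin 3) ℕ →+* ℕ[X] :=
  MvPolynomial.eval₂Hom Polynomial.C ![X, 0, 0]

open Polynomial in
/-- evaluation at `X = -1` -/
noncomputable def ev : ℕ[X] →+* ℤ := Polynomial.eval₂RingHom (Nat.castRingHom ℤ) (-1)

/-- The kernel of the composite, an ideal of the polynomial semiring. -/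
noncomputable def K : Ideal (MvPolynomial (Fin 3) ℕ) := RingHom.ker (ev.comp sp)

theorem mem_K (f : MvPolynomial (Fin 3) ℕ) : f ∈ K ↔ ev (sp f) = 0 := Iff.rfl

theorem K_sub : IsSubtractive K := by
  intro x y hx hxy
  rw [mem_K] at *
  rw [map_add, map_add, hx, zero_add] at hxy
  exact hxy

/-- the ideal generated by 1 + X -/
noncomputable def I : Ideal (MvPolynomial (Fin 3) ℕ) := Ideal.span {1 + MvPolynomial.X 0}

theorem I_le : I ≤ K := by
  unfold I
  rw [Ideal.span_le, Set.singleton_subset_iff]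
  show _ ∈ K
  rw [mem_K]
  simp [sp, ev]

theorem scl_le : scl I ≤ K := sInf_le ⟨I_le, K_sub⟩

/-- the element outside the product -/
noncomputable def hv : MvPolynomial (Fin 3) ℕ :=
  MvPolynomial.X 0 ^ 4 + 4 * MvPolynomial.X 0 + 3

theorem sp_hv : sp hv = hh := by
  simp [sp, hv, hh]

theorem hv_notMem : hv ∉ K * K := by
  intro hmem
  have key : ∀ x ∈ K * K, (∀ n, (sp x).coeff n ≤ hh.coeff n) → sp x = 0 := by
    intro x hx
    induction hx using Submodule.mul_induction_on' with
    | mem_mul_mem m hm n hn =>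
      intro hle
      rw [map_mul] at *
      exact prod_zero _ _ hm hn hle
    | add x _ y _ ihx ihy =>
      intro hle
      rw [map_add] at *
      have h1 := ihx fun n => le_trans (by rw [Polynomial.coeff_add]; omega) (hle n)
      have h2 := ihy fun n => le_trans (by rw [Polynomial.coeff_add]; omega) (hle n)
      rw [h1, h2, add_zero]
  have h0 := key hv hmem (fun n => by rw [sp_hv])
  rw [sp_hv] at h0
  have := congrArg (fun p => Polynomial.coeff p 0) h0
  simp [hh] at this

theorem hv_mem : hv ∈ scl (I * I) := by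
  unfold scl
  rw [Ideal.mem_sInf]
  rintro J ⟨hJ, hsub⟩
  have h1 : (1 + MvPolynomial.X 0 : MvPolynomial (Fin 3) ℕ) ∈ I :=
    Ideal.subset_span (Set.mem_singleton _)
  have h2 : (1 + MvPolynomial.X 0 : MvPolynomial (Fin 3) ℕ) * (1 + MvPolynomial.X 0) ∈ J :=
    hJ (Ideal.mul_mem_mul h1 h1)
  have h3 : 2 * MvPolynomial.X 0 *
      ((1 + MvPolynomial.X 0 : MvPolynomial (Fin 3) ℕ) * (1 + MvPolynomial.X 0)) ∈ J :=
    J.mul_mem_left _ h2
  have h4 : (MvPolynomial.X 0 ^ 2 + 3) *
      ((1 + MvPolynomial.X 0 : MvPolynomial (Fin 3) ℕ) * (1 + MvPolynomial.X 0)) ∈ J :=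
    J.mul_mem_left _ h2
  refine hsub _ _ h3 ?_
  convert h4 using 1
  unfold hv
  ring

/-- There are a zerosumfree semiring and ideals `I, J` of its polynomial semiring in three
variables with `scl I * scl J` different from `scl (I * J)`. -/
theorem result : ∃ (S₀ : Type) (_ : CommSemiring S₀), (1 : S₀) ≠ 0 ∧
    (∀ a b : S₀, a + b = 0 → a = 0 ∧ b = 0) ∧
    ∃ I J : Ideal (MvPolynomial (Fin 3) S₀), scl I * scl J ≠ scl (I * J) := by
  refine ⟨ℕ, inferInstance, one_ne_zero, fun a b h => by omega, I, I, fun h => ?_⟩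
  have h1 : hv ∈ scl I * scl I := by
    rw [h]
    exact hv_mem
  exact hv_notMem (Ideal.mul_mono scl_le scl_le h1)

end Pool.Agent.Results.MP_05a6d5_al.SclProduct
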